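import Mathlib

set_option autoImplicit false
open Filter Topology Finset

namespace Pool.Agent.J6H79.DR

/-- the real recursion forces a lower and an upper bound of order `1 / n` -/
theorem eps_upper (e d : ℕ → ℝ) (he0 : ∀ n, 0 ≤ e n) (he1 : ∀ n, e n ≤ 1)
    (hrec : ∀ n, e (n + 1) = e n + e n ^ 2 / 2 - d n + d n ^ 2 / 2)
    (n0 : ℕ) (hn0 : 1 ≤ n0) (hd : ∀ n, n0 ≤ n → d n * (n : ℝ) ^ 2 ≤ 5.4) :
    ∀ n, n0 ≤ n → e n ^ 2 * (n : ℝ) ^ 2 ≤ 21.6 := by
  intro n1 hn1
  by_contra hcon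
  push Not at hcon
  have hn1pos : (0 : ℝ) < n1 := by
    have : 0 < n1 := by omega
    exact_mod_cast this
  have hpos : 0 < e n1 := by
    rcases (he0 n1).eq_or_lt with h | h
    · rw [← h] at hcon
      norm_num at hcon
    · exact h
  have key : ∀ j : ℕ, e n1 + j * (e n1 ^ 2 / 4) ≤ e (n1 + j) := by
    intro j
    induction j with
    | zero => simp
    | succ j ih =>
      have h1 : e n1 ≤ e (n1 + j) := by
        have : 0 ≤ (j : ℝ) * (e n1 ^ 2 / 4) := by positivity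
        linarith
      have h2 : e n1 ^ 2 ≤ e (n1 + j) ^ 2 := by
        have := he0 n1
        nlinarith
      have h3 : d (n1 + j) ≤ e n1 ^ 2 / 4 := by
        have hd' := hd (n1 + j) (by omega)
        have hN : (n1 : ℝ) ≤ ((n1 + j : ℕ) : ℝ) := by exact_mod_cast Nat.le_add_right n1 j
        have hNN : (n1 : ℝ) ^ 2 ≤ ((n1 + j : ℕ) : ℝ) ^ 2 := by nlinarith
        have hNpos : (0 : ℝ) < ((n1 + j : ℕ) : ℝ) ^ 2 := by
          have : (0 : ℝ) < ((n1 + j : ℕ) : ℝ) := lt_of_lt_of_le hn1pos hN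
          positivity
        by_contra hc
        push Not at hc
        have h5 : e n1 ^ 2 * (n1 : ℝ) ^ 2 ≤ e n1 ^ 2 * ((n1 + j : ℕ) : ℝ) ^ 2 :=
          mul_le_mul_of_nonneg_left hNN (sq_nonneg _)
        have h6 : e n1 ^ 2 / 4 * ((n1 + j : ℕ) : ℝ) ^ 2 < d (n1 + j) * ((n1 + j : ℕ) : ℝ) ^ 2 :=
          mul_lt_mul_of_pos_right hc hNpos
        linarith
      have h4 := hrec (n1 + j)
      have h7 : n1 + (j + 1) = n1 + j + 1 := by ring
      rw [h7, h4]
      push_cast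
      nlinarith [sq_nonneg (d (n1 + j))]
  obtain ⟨j, hj⟩ := exists_nat_gt (1 / (e n1 ^ 2 / 4))
  have h8 := key j
  have h9 := he1 (n1 + j)
  have h10 : 0 < e n1 ^ 2 / 4 := by positivity
  rw [div_lt_iff₀ h10] at hj
  linarith

theorem eps_lower (e d : ℕ → ℝ) (he0 : ∀ n, 0 ≤ e n) 
    (hrec : ∀ n, e (n + 1) = e n + e n ^ 2 / 2 - d n + d n ^ 2 / 2)
    (n0 : ℕ) (hn0 : 100 ≤ n0) (hd : ∀ n, n0 ≤ n → d n * (n : ℝ) ^ 2 ≤ 5.4)
    (hd2 : ∀ n, n0 ≤ n → 2.6 ≤ d n * (n : ℝ) ^ 2) :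
    ∀ n, n0 ≤ n → 1.4 ≤ e n * n := by
  intro n1 hn1
  by_contra hcon
  push Not at hcon
  -- x_n = n e_n decreases
  have key : ∀ j : ℕ, e (n1 + j) * ((n1 + j : ℕ) : ℝ) ≤
      1.4 - 0.1 * ∑ i ∈ range j, (1 : ℝ) / ((n1 + i : ℕ) : ℝ) := by
    intro j
    induction j with
    | zero => simpa using hcon.le
    | succ j ih =>
      rw [Finset.sum_range_succ]
      set N : ℝ := ((n1 + j : ℕ) : ℝ) with hN
      have hNge : (100 : ℝ) ≤ N := by
        rw [hN]
        have : 100 ≤ n1 + j := by omega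
        exact_mod_cast this
      have hNpos : 0 < N := by linarith
      have hsum : 0 ≤ ∑ i ∈ range j, (1 : ℝ) / ((n1 + i : ℕ) : ℝ) :=
        Finset.sum_nonneg (fun i _ => by positivity)
      set x : ℝ := e (n1 + j) * N with hx
      have hx0 : 0 ≤ x := mul_nonneg (he0 _) hNpos.le
      have hx1 : x ≤ 1.4 := by linarith
      have hcast : ((n1 + (j + 1) : ℕ) : ℝ) = N + 1 := by
        rw [hN]; push_cast; ring
      have h7 : n1 + (j + 1) = n1 + j + 1 := by ring
      have hD := hd (n1 + j) (by omega)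
      have hD2 := hd2 (n1 + j) (by omega)
      rw [← hN] at hD hD2
      set y : ℝ := d (n1 + j) * N ^ 2 with hy
      have he : e (n1 + j) = x / N := by rw [hx]; field_simp
      have hdd : d (n1 + j) = y / N ^ 2 := by rw [hy]; field_simp
      rw [hcast, h7, hrec, he, hdd]
      -- (x/N + x^2/(2N^2) - y/N^2 + y^2/(2 N^4)) (N+1)
      have hy4 : y ^ 2 / N ^ 4 ≤ 0.1 / N ^ 2 := by
        rw [div_le_div_iff₀ (by positivity) (by positivity)]
        have : y ^ 2 ≤ 30 := by nlinarith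
        have h100 : (10000 : ℝ) ≤ N ^ 2 := by nlinarith
        have h3 : y ^ 2 * N ^ 2 ≤ 30 * N ^ 2 := mul_le_mul_of_nonneg_right this (by positivity)
        have h4 : N ^ 4 = N ^ 2 * N ^ 2 := by ring
        rw [h4]
        nlinarith
      have e1 : (x / N + (x / N) ^ 2 / 2 - y / N ^ 2 + (y / N ^ 2) ^ 2 / 2) * (N + 1)
          = x + x / N + (x ^ 2 / 2 - y) * ((N + 1) / N ^ 2) + (y ^ 2 / N ^ 4) / 2 * (N + 1) := by
        field_simp
        ring
      rw [e1]
      have e2 : (y ^ 2 / N ^ 4) / 2 * (N + 1) ≤ 0.05 * ((N + 1) / N ^ 2) := by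
        have : (y ^ 2 / N ^ 4) / 2 * (N + 1) ≤ (0.1 / N ^ 2) / 2 * (N + 1) := by
          apply mul_le_mul_of_nonneg_right _ (by linarith)
          linarith
        calc _ ≤ (0.1 / N ^ 2) / 2 * (N + 1) := this
          _ = 0.05 * ((N + 1) / N ^ 2) := by ring
      have e3 : x ^ 2 / 2 - y + 0.05 ≤ -1.52 := by nlinarith
      have e4 : 1 / N ≤ (N + 1) / N ^ 2 := by
        rw [div_le_div_iff₀ hNpos (by positivity)]
        nlinarith
      have e5 : (x ^ 2 / 2 - y + 0.05) * ((N + 1) / N ^ 2) ≤ -1.52 * (1 / N) := by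
        have hp : 0 < (N + 1) / N ^ 2 := by positivity
        have hq : 0 < 1 / N := by positivity
        nlinarith
      have e6 : x / N ≤ 1.4 * (1 / N) := by
        rw [div_eq_mul_one_div]
        exact mul_le_mul_of_nonneg_right hx1 (by positivity)
      have e7 : 0 < 1 / N := by positivity
      nlinarith
  -- divergence of the harmonic series
  have hdiv : Tendsto (fun j => ∑ i ∈ range j, (1 : ℝ) / ((n1 + i : ℕ) : ℝ)) atTop atTop := by
    have h1 : ¬ Summable (fun i : ℕ => (1 : ℝ) / ((n1 + i : ℕ) : ℝ)) := by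
      intro hs
      have h2 : Summable (fun i : ℕ => (fun n : ℕ => (1 : ℝ) / (n : ℝ)) (i + n1)) := by
        refine hs.congr (fun i => ?_)
        simp [add_comm]
      exact Real.not_summable_one_div_natCast ((summable_nat_add_iff n1).1 h2)
    exact (not_summable_iff_tendsto_nat_atTop_of_nonneg (fun i => by positivity)).1 h1
  obtain ⟨j, hj⟩ := (hdiv.eventually (eventually_gt_atTop (14 : ℝ))).exists
  have h1 := key j
  have h2 : 0 ≤ e (n1 + j) * ((n1 + j : ℕ) : ℝ) := mul_nonneg (he0 _) (by positivity)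
  linarith

end Pool.Agent.J6H79.DR
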