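import Mathlib
import Pool.Agent.J6H79.DR

set_option autoImplicit false
open Filter Topology Finset

namespace Pool.Agent.J6H79.DR

/-- convolution -/
noncomputable def cv (f : ℕ → ℝ) (l : ℕ) : ℝ := ∑ ij ∈ antidiagonal l, f ij.1 * f ij.2

theorem cv_nonneg (f : ℕ → ℝ) (hf : ∀ k, 0 ≤ f k) (l : ℕ) : 0 ≤ cv f l :=
  Finset.sum_nonneg (fun _ _ => mul_nonneg (hf _) (hf _))

theorem cv_hasSum (f : ℕ → ℝ) (hf : ∀ k, 0 ≤ f k) (a : ℝ) (h : HasSum f a) :
    HasSum (cv f) (a ^ 2) := by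
  have hn : Summable (fun k => ‖f k‖) := by
    refine h.summable.congr (fun k => ?_)
    rw [Real.norm_of_nonneg (hf k)]
  have h1 := tsum_mul_tsum_eq_tsum_sum_antidiagonal_of_summable_norm hn hn
  have h2 := summable_norm_sum_mul_antidiagonal_of_summable_norm hn hn
  have h3 : Summable (cv f) := h2.of_norm
  have h4 := h3.hasSum
  rw [← h.tsum_eq, sq]
  rw [h1]
  exact h4

theorem mul_cv (f : ℕ → ℝ) (l : ℕ) :
    (l : ℝ) * cv f l = 2 * ∑ ij ∈ antidiagonal l, ((ij.1 : ℝ) * f ij.1) * f ij.2 := by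
  have h1 : ∑ ij ∈ antidiagonal l, ((ij.1 : ℝ) * f ij.1) * f ij.2
      = ∑ ij ∈ antidiagonal l, f ij.1 * ((ij.2 : ℝ) * f ij.2) := by
    rw [← Finset.Nat.sum_antidiagonal_swap]
    refine Finset.sum_congr rfl (fun ij _ => ?_)
    simp only [Prod.fst_swap, Prod.snd_swap]
    ring
  have h2 : (l : ℝ) * cv f l = ∑ ij ∈ antidiagonal l, ((ij.1 : ℝ) * f ij.1) * f ij.2
      + ∑ ij ∈ antidiagonal l, f ij.1 * ((ij.2 : ℝ) * f ij.2) := by
    rw [← Finset.sum_add_distrib, cv, Finset.mul_sum]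
    refine Finset.sum_congr rfl (fun ij hij => ?_)
    rw [HasAntidiagonal.mem_antidiagonal] at hij
    have : (l : ℝ) = (ij.1 : ℝ) + (ij.2 : ℝ) := by rw [← hij]; push_cast; ring
    rw [this]
    ring
  rw [h2, ← h1]
  ring

theorem mul_cv_hasSum (f : ℕ → ℝ) (hf : ∀ k, 0 ≤ f k) (a b : ℝ) (h : HasSum f a)
    (h' : HasSum (fun k : ℕ => (k : ℝ) * f k) b) :
    HasSum (fun l : ℕ => (l : ℝ) * cv f l) (2 * (b * a)) := by
  have hn : Summable (fun k => ‖f k‖) := by
    refine h.summable.congr (fun k => ?_)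
    rw [Real.norm_of_nonneg (hf k)]
  have hn' : Summable (fun k : ℕ => ‖(k : ℝ) * f k‖) := by
    refine h'.summable.congr (fun k => ?_)
    rw [Real.norm_of_nonneg (mul_nonneg (by positivity) (hf k))]
  have h1 := tsum_mul_tsum_eq_tsum_sum_antidiagonal_of_summable_norm hn' hn
  have h2 := (summable_norm_sum_mul_antidiagonal_of_summable_norm hn' hn).of_norm
  have h3 := h2.hasSum
  rw [← h1, h.tsum_eq, h'.tsum_eq] at h3
  have h4 := h3.mul_left 2
  have h5 : (fun l : ℕ => (l : ℝ) * cv f l) =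
      fun l : ℕ => 2 * ∑ ij ∈ antidiagonal l, ((ij.1 : ℝ) * f ij.1) * f ij.2 :=
    funext (mul_cv f)
  rw [h5]
  exact h4

theorem cv_zero (f : ℕ → ℝ) : cv f 0 = f 0 ^ 2 := by simp [cv, sq]

theorem step_sum (f f' : ℕ → ℝ) (hf : ∀ k, 0 ≤ f k) (a : ℝ) (h : HasSum f a)
    (hs : ∀ k, f' k = (1 / 2) * cv f (k + 1) + if k = 0 then (f 0) ^ 2 else 0) :
    HasSum f' ((a ^ 2 + f 0 ^ 2) / 2) := by
  have h1 := cv_hasSum f hf a h
  have h2 : HasSum (fun k => cv f (k + 1)) (a ^ 2 - f 0 ^ 2) := by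
    have := (hasSum_nat_add_iff' (f := cv f) 1).2 h1
    simpa [cv_zero] using this
  have h4 : HasSum (fun k : ℕ => if k = 0 then (f 0) ^ 2 else 0) ((f 0) ^ 2) := by
    have := hasSum_ite_eq (0 : ℕ) ((f 0) ^ 2)
    simpa using this
  have h5 := (h2.mul_left (1 / 2)).add h4
  have h6 : f' = fun k => (1 / 2) * cv f (k + 1) + if k = 0 then (f 0) ^ 2 else 0 := funext hs
  rw [h6]
  have h7 : (a ^ 2 + f 0 ^ 2) / 2 = 1 / 2 * (a ^ 2 - f 0 ^ 2) + f 0 ^ 2 := by ring
  rw [h7]
  exact h5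

theorem step_dsum (f f' : ℕ → ℝ) (hf : ∀ k, 0 ≤ f k) (a b : ℝ) (h : HasSum f a)
    (h' : HasSum (fun k : ℕ => (k : ℝ) * f k) b)
    (hs : ∀ k, f' k = (1 / 2) * cv f (k + 1) + if k = 0 then (f 0) ^ 2 else 0) :
    HasSum (fun k : ℕ => (k : ℝ) * f' k) ((2 * (b * a) - (a ^ 2 - f 0 ^ 2)) / 2) := by
  have h1 := mul_cv_hasSum f hf a b h h'
  have h2 : HasSum (fun k : ℕ => ((k + 1 : ℕ) : ℝ) * cv f (k + 1)) (2 * (b * a)) := by
    have := (hasSum_nat_add_iff' (f := fun l : ℕ => (l : ℝ) * cv f l) 1).2 h1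
    simpa using this
  have h3 : HasSum (fun k => cv f (k + 1)) (a ^ 2 - f 0 ^ 2) := by
    have := (hasSum_nat_add_iff' (f := cv f) 1).2 (cv_hasSum f hf a h)
    simpa [cv_zero] using this
  have h4 := (h2.sub h3).mul_left (1 / 2)
  have h5 : (fun k : ℕ => (k : ℝ) * f' k) =
      fun k : ℕ => 1 / 2 * (((k + 1 : ℕ) : ℝ) * cv f (k + 1) - cv f (k + 1)) := by
    funext k
    rw [hs k]
    by_cases hk : k = 0
    · subst hk; simp
    · simp only [if_neg hk]
      push_cast
      ring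
  rw [h5]
  have h7 : (2 * (b * a) - (a ^ 2 - f 0 ^ 2)) / 2 = 1 / 2 * (2 * (b * a) - (a ^ 2 - f 0 ^ 2)) := by
    ring
  rw [h7]
  exact h4

/-- partial sums of the convolution are at most the square of the partial sums -/
theorem sum_cv_le (f : ℕ → ℝ) (hf : ∀ k, 0 ≤ f k) (n : ℕ) :
    ∑ l ∈ range n, cv f l ≤ (∑ i ∈ range n, f i) ^ 2 := by
  have h1 : ∑ l ∈ range n, cv f l = ∑ x ∈ (range n).sigma (fun l => antidiagonal l),
      f x.2.1 * f x.2.2 := by
    rw [Finset.sum_sigma]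
    rfl
  have h2 : (∑ i ∈ range n, f i) ^ 2 = ∑ x ∈ (range n) ×ˢ (range n), f x.1 * f x.2 := by
    rw [sq, Finset.sum_mul_sum, Finset.sum_product]
  rw [h1, h2]
  have hinj : Set.InjOn (fun x : (Σ _ : ℕ, ℕ × ℕ) => x.2)
      ↑((range n).sigma (fun l => antidiagonal l)) := by
    rintro ⟨l, a, b⟩ hx ⟨l', a', b'⟩ hy hxy
    simp only [coe_sigma, Set.mem_sigma_iff, mem_coe, mem_range,
      HasAntidiagonal.mem_antidiagonal] at hx hy
    simp only [Prod.mk.injEq] at hxy
    obtain ⟨rfl, rfl⟩ := hxy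
    have : l = l' := by omega
    subst this
    rfl
  calc ∑ x ∈ (range n).sigma (fun l => antidiagonal l), f x.2.1 * f x.2.2
      = ∑ y ∈ ((range n).sigma (fun l => antidiagonal l)).image (fun x => x.2), f y.1 * f y.2 := by
        rw [Finset.sum_image]
        intro x hx y hy hxy
        exact hinj (by exact_mod_cast hx) (by exact_mod_cast hy) hxy
    _ ≤ ∑ x ∈ (range n) ×ˢ (range n), f x.1 * f x.2 := by
        apply Finset.sum_le_sum_of_subset_of_nonneg
        · intro y hy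
          rw [Finset.mem_image] at hy
          obtain ⟨⟨l, a, b⟩, hx, rfl⟩ := hy
          simp only [mem_sigma, mem_range, HasAntidiagonal.mem_antidiagonal] at hx
          simp only [mem_product, mem_range]
          omega
        · intro _ _ _
          exact mul_nonneg (hf _) (hf _)

/-- The tail inequality. -/
theorem tail_step (f f' : ℕ → ℝ) (hf : ∀ k, 0 ≤ f k) (a a' : ℝ)
    (ha' : a' = (a ^ 2 + f 0 ^ 2) / 2)
    (hs : ∀ k, f' k = (1 / 2) * cv f (k + 1) + if k = 0 then (f 0) ^ 2 else 0)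
    (t : ℕ) (ht : 1 ≤ t) :
    (a - ∑ i ∈ range (t + 1), f i) * (a - (a - ∑ i ∈ range (t + 1), f i) / 2)
      ≤ a' - ∑ i ∈ range t, f' i := by
  have h1 : ∑ i ∈ range t, f' i = (1 / 2) * (∑ l ∈ range (t + 1), cv f l - f 0 ^ 2) + f 0 ^ 2 := by
    have h2 : ∑ i ∈ range t, f' i =
        ∑ i ∈ range t, ((1 / 2) * cv f (i + 1) + if i = 0 then (f 0) ^ 2 else 0) :=
      Finset.sum_congr rfl (fun i _ => hs i)
    rw [h2, Finset.sum_add_distrib, ← Finset.mul_sum, Finset.sum_range_succ', cv_zero]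
    have h3 : ∑ i ∈ range t, (if i = 0 then (f 0) ^ 2 else 0) = f 0 ^ 2 := by
      rw [Finset.sum_ite_eq']
      rw [if_pos (Finset.mem_range.2 (by omega))]
    rw [h3]
    ring
  have h4 := sum_cv_le f hf (t + 1)
  rw [h1, ha']
  nlinarith


theorem harmonic_tendsto (n1 : ℕ) :
    Tendsto (fun j => ∑ i ∈ range j, (1 : ℝ) / ((n1 + i : ℕ) : ℝ)) atTop atTop := by
  have h1 : ¬ Summable (fun i : ℕ => (1 : ℝ) / ((n1 + i : ℕ) : ℝ)) := by
    intro hs
    have h2 : Summable (fun i : ℕ => (fun n : ℕ => (1 : ℝ) / (n : ℝ)) (i + n1)) := by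
      refine hs.congr (fun i => ?_)
      simp [add_comm]
    exact Real.not_summable_one_div_natCast ((summable_nat_add_iff n1).1 h2)
  exact (not_summable_iff_tendsto_nat_atTop_of_nonneg (fun i => by positivity)).1 h1

theorem main_contra (q : ℕ → ℕ → ℝ) (g : ℕ → ℝ) (κ : ℝ) (hκ : 0 < κ)
    (hq : ∀ n k, 0 ≤ q n k) (hg : ∀ n, HasSum (q n) (g n))
    (hs : ∀ n k, q (n + 1) k = (1 / 2) * cv (q n) (k + 1) + if k = 0 then (q n 0) ^ 2 else 0)
    (hg1 : ∀ n, 1 ≤ g n) (hg2 : ∀ n, g n ≤ 2)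
    (hrec : ∀ n, g (n + 1) = (g n ^ 2 + q n 0 ^ 2) / 2)
    (htail : ∀ N : ℕ, 1 ≤ N → κ / (N : ℝ) ^ 2 ≤ g 0 - ∑ i ∈ range (N + 1), q 0 i)
    (n0 : ℕ) (hd : ∀ n, n0 ≤ n → (1 - q n 0) * (n : ℝ) ^ 2 ≤ 5.4)
    (hd2 : ∀ n, n0 ≤ n → 2.6 ≤ (1 - q n 0) * (n : ℝ) ^ 2) : False := by
  set e : ℕ → ℝ := fun n => g n - 1 with he
  set d : ℕ → ℝ := fun n => 1 - q n 0 with hdd
  have he0 : ∀ n, 0 ≤ e n := fun n => by simp only [he]; linarith [hg1 n]
  have he1 : ∀ n, e n ≤ 1 := fun n => by simp only [he]; linarith [hg2 n]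
  have herec : ∀ n, e (n + 1) = e n + e n ^ 2 / 2 - d n + d n ^ 2 / 2 := by
    intro n
    simp only [he, hdd]
    rw [hrec n]; ring
  set n1 : ℕ := max n0 100 with hn1
  have hn1a : n0 ≤ n1 := le_max_left _ _
  have hn1b : 100 ≤ n1 := le_max_right _ _
  have hup := eps_upper e d he0 he1 herec n1 (by omega) (fun n hn => hd n (le_trans hn1a hn))
  have hlo := eps_lower e d he0 herec n1 hn1b (fun n hn => hd n (le_trans hn1a hn))
    (fun n hn => hd2 n (le_trans hn1a hn))
  have hdn : ∀ n, n1 ≤ n → d n * (n : ℝ) ^ 2 ≤ 5.4 := fun n hn => hd n (le_trans hn1a hn)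
  -- basic numerical consequences
  have hbig : ∀ n, n1 ≤ n → (100 : ℝ) ≤ n := fun n hn => by
    have : 100 ≤ n := le_trans hn1b hn
    exact_mod_cast this
  have hde : ∀ n, n1 ≤ n → d n ≤ e n := by
    intro n hn
    have hN := hbig n hn
    have h1 := hdn n hn
    have h2 := hlo n hn
    by_contra hc
    push Not at hc
    have h3 : e n * (n : ℝ) ^ 2 < d n * (n : ℝ) ^ 2 := mul_lt_mul_of_pos_right hc (by positivity)
    have h4 : 1.4 * (n : ℝ) ≤ e n * (n : ℝ) ^ 2 := by
      have : e n * (n : ℝ) ^ 2 = (e n * n) * n := by ring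
      rw [this]
      exact mul_le_mul_of_nonneg_right h2 (by linarith)
    linarith
  set h : ℕ → ℕ → ℝ := fun N n => g n - ∑ i ∈ range (N - n + 1), q n i with hh
  have hnn : ∀ N n, 0 ≤ h N n := by
    intro N n
    have := sum_le_hasSum (range (N - n + 1)) (fun i _ => hq n i) (hg n)
    simp only [hh]
    linarith
  have hle : ∀ N n, h N n ≤ e n + d n := by
    intro N n
    have h1 : q n 0 ≤ ∑ i ∈ range (N - n + 1), q n i :=
      Finset.single_le_sum (f := fun i => q n i) (fun i _ => hq n i)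
        (Finset.mem_range.2 (by omega))
    simp only [hh, he, hdd]
    linarith
  have hleg : ∀ N n, h N n ≤ g n := by
    intro N n
    have h1 : 0 ≤ ∑ i ∈ range (N - n + 1), q n i := Finset.sum_nonneg (fun i _ => hq n i)
    simp only [hh]
    linarith
  have hstep : ∀ N n, n < N → h N n * (g n - h N n / 2) ≤ h N (n + 1) := by
    intro N n hn
    have h1 := tail_step (q n) (q (n + 1)) (hq n) (g n) (g (n + 1)) (hrec n) (hs n) (N - n)
      (by omega)
    have h2 : N - (n + 1) + 1 = N - n := by omega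
    simp only [hh]
    rw [h2]
    exact h1
  have hmono1 : ∀ N n, n1 ≤ n → n < N → h N n ≤ h N (n + 1) := by
    intro N n hn hnN
    have h1 := hstep N n hnN
    have h2 := hle N n
    have h3 := hde n hn
    have h4 : 1 ≤ g n - h N n / 2 := by
      have : g n = 1 + e n := by simp only [he]; ring
      rw [this]; linarith
    have h5 := hnn N n
    nlinarith
  have hmono : ∀ N n m, n1 ≤ n → n ≤ m → m ≤ N → h N n ≤ h N m := by
    intro N n m hn hnm
    induction m, hnm using Nat.le_induction with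
    | base => intro _; exact le_refl _
    | succ m hnm ih =>
      intro hm
      exact (ih (by omega)).trans (hmono1 N m (by omega) (by omega))
  have hNN : ∀ N, n1 ≤ N → h N N * (N : ℝ) ≤ 5 := by
    intro N hN
    have h1 := hle N N
    have hNb := hbig N hN
    have h2 := hup N hN
    have h3 := hdn N hN
    have h4 : e N * (N : ℝ) ≤ 4.7 := by
      have h5 : (e N * (N : ℝ)) ^ 2 ≤ 21.6 := by rw [mul_pow]; exact h2
      have h6 : 0 ≤ e N * (N : ℝ) := mul_nonneg (he0 N) (by positivity)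
      nlinarith
    have h7 : d N * (N : ℝ) ≤ 0.1 := by
      by_contra hc
      push Not at hc
      have : 0.1 * (N : ℝ) < d N * (N : ℝ) * (N : ℝ) := mul_lt_mul_of_pos_right hc (by linarith)
      nlinarith
    have h8 : h N N * (N : ℝ) ≤ (e N + d N) * (N : ℝ) :=
      mul_le_mul_of_nonneg_right h1 (by positivity)
    nlinarith
  -- growth
  have hhalf : ∀ N n, n ≤ N → h N 0 / 2 ^ n ≤ h N n := by
    intro N n
    induction n with
    | zero => intro _; simp
    | succ n ih =>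
      intro hn
      have h1 := ih (by omega)
      have h2 := hstep N n (by omega)
      have h3 := hleg N n
      have h4 := hg1 n
      have h5 := hnn N n
      have h6 : 1 / 2 ≤ g n - h N n / 2 := by linarith
      have h7 : h N 0 / 2 ^ (n + 1) = (h N 0 / 2 ^ n) * (1 / 2) := by
        rw [pow_succ]; field_simp
      rw [h7]
      calc (h N 0 / 2 ^ n) * (1 / 2) ≤ h N n * (1 / 2) :=
            mul_le_mul_of_nonneg_right h1 (by norm_num)
        _ ≤ h N n * (g n - h N n / 2) := mul_le_mul_of_nonneg_left h6 h5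
        _ ≤ _ := h2
  have hgrow : ∀ M, n1 ≤ M → ∀ j, n1 + j ≤ M →
      h (30 * M) n1 * (((n1 + j : ℕ) : ℝ) / n1) *
        (1 + 0.1 * ∑ i ∈ range j, (1 : ℝ) / ((n1 + i : ℕ) : ℝ)) ≤ h (30 * M) (n1 + j) := by
    intro M hM j
    induction j with
    | zero =>
      intro _
      have : (n1 : ℝ) ≠ 0 := by
        have := hbig n1 le_rfl
        positivity
      simp [div_self this]
    | succ j ih =>
      intro hj
      have h1 := ih (by omega)
      have h2 := hstep (30 * M) (n1 + j) (by omega)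
      have h5 := hnn (30 * M) (n1 + j)
      have h3 := hmono (30 * M) (n1 + j) (30 * M) (by omega) (by omega) le_rfl
      have h4 := hNN (30 * M) (by omega)
      have hMb := hbig M hM
      have h6 := hlo (n1 + j) (by omega)
      set n : ℝ := ((n1 + j : ℕ) : ℝ) with hn
      have hnb : (100 : ℝ) ≤ n := hbig (n1 + j) (by omega)
      have hnM : n ≤ M := by
        rw [hn]
        have : n1 + j ≤ M := by omega
        exact_mod_cast this
      have hn1b' : (100 : ℝ) ≤ n1 := hbig n1 le_rfl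
      set S : ℝ := ∑ i ∈ range j, (1 : ℝ) / ((n1 + i : ℕ) : ℝ) with hS
      have hS0 : 0 ≤ S := Finset.sum_nonneg (fun i _ => by positivity)
      rw [Finset.sum_range_succ, ← hS, ← hn]
      have hcast : ((n1 + (j + 1) : ℕ) : ℝ) = n + 1 := by rw [hn]; push_cast; ring
      have hassoc : n1 + (j + 1) = n1 + j + 1 := by ring
      rw [hcast]
      have hgoal2 : h (30 * M) (n1 + (j + 1)) = h (30 * M) (n1 + j + 1) := by rw [hassoc]
      rw [hgoal2]
      have hgn : g (n1 + j) = 1 + e (n1 + j) := by simp only [he]; ring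
      -- factor at least 1 + 1.3 / n
      have hfac : 1 + 1.3 / n ≤ g (n1 + j) - h (30 * M) (n1 + j) / 2 := by
        rw [hgn]
        have h7 : 1.4 / n ≤ e (n1 + j) := by
          rw [div_le_iff₀ (by linarith)]
          exact h6
        have h8 : h (30 * M) (n1 + j) / 2 ≤ 0.1 / n := by
          rw [le_div_iff₀ (by linarith)]
          have h9 : h (30 * M) (30 * M) * ((30 * M : ℕ) : ℝ) ≤ 5 := h4
          push_cast at h9
          have h10 : h (30 * M) (n1 + j) * (30 * M) ≤ 5 := by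
            calc h (30 * M) (n1 + j) * (30 * M) ≤ h (30 * M) (30 * M) * (30 * M) :=
                  mul_le_mul_of_nonneg_right h3 (by positivity)
              _ ≤ 5 := h9
          have h11 : h (30 * M) (n1 + j) * (30 * n) ≤ h (30 * M) (n1 + j) * (30 * M) :=
            mul_le_mul_of_nonneg_left (by linarith) h5
          nlinarith
        have h12 : 1.4 / n = 1.3 / n + 0.1 / n := by ring
        linarith
      calc h (30 * M) n1 * ((n + 1) / n1) * (1 + 0.1 * (S + 1 / n))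
          ≤ h (30 * M) n1 * (n / n1) * (1 + 0.1 * S) * (1 + 1.3 / n) := by
            have hA : (n + 1) / n1 * (1 + 0.1 * (S + 1 / n)) ≤
                n / n1 * (1 + 0.1 * S) * (1 + 1.3 / n) := by
              have hx1 : (n + 1) / n1 * (1 + 0.1 * (S + 1 / n)) =
                  ((n + 1) * (1 + 0.1 * S) + 0.1 * ((n + 1) / n)) / n1 := by
                field_simp
                ring
              have hx2 : n / n1 * (1 + 0.1 * S) * (1 + 1.3 / n) =
                  ((n + 1.3) * (1 + 0.1 * S)) / n1 := by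
                field_simp
              rw [hx1, hx2]
              apply div_le_div_of_nonneg_right _ (by linarith)
              have hx3 : (n + 1) / n ≤ 2 := by
                rw [div_le_iff₀ (by linarith)]
                linarith
              nlinarith
            have hB := mul_le_mul_of_nonneg_left hA (hnn (30 * M) n1)
            calc _ = h (30 * M) n1 * ((n + 1) / n1 * (1 + 0.1 * (S + 1 / n))) := by ring
              _ ≤ _ := hB
              _ = _ := by ring
        _ ≤ h (30 * M) (n1 + j) * (1 + 1.3 / n) := by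
            apply mul_le_mul_of_nonneg_right h1
            positivity
        _ ≤ h (30 * M) (n1 + j) * (g (n1 + j) - h (30 * M) (n1 + j) / 2) :=
            mul_le_mul_of_nonneg_left hfac h5
        _ ≤ _ := h2
  -- choose M large
  have hdiv := harmonic_tendsto n1
  obtain ⟨j, hj⟩ := (hdiv.eventually
    (eventually_gt_atTop (10 * (150 * 2 ^ n1 * n1 / κ)))).exists
  set M : ℕ := n1 + j with hM
  have hM1 : n1 ≤ M := by omega
  have h1 := hgrow M hM1 j le_rfl
  have h2 := hmono (30 * M) M (30 * M) hM1 (by omega) le_rfl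
  have h3 := hNN (30 * M) (by omega)
  have h4 := hhalf (30 * M) n1 (by omega)
  have h5 : κ / ((30 * M : ℕ) : ℝ) ^ 2 ≤ h (30 * M) 0 := by
    have := htail (30 * M) (by omega)
    simpa [hh] using this
  set S : ℝ := ∑ i ∈ range j, (1 : ℝ) / ((n1 + i : ℕ) : ℝ) with hS
  rw [← hM] at h1
  push_cast at h3 h5
  have hMb := hbig M hM1
  have hn1b' : (100 : ℝ) ≤ n1 := hbig n1 le_rfl
  have hS0 : 0 ≤ S := Finset.sum_nonneg (fun i _ => by positivity)
  have hMpos : (0 : ℝ) < M := by linarith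
  have hn1pos : (0 : ℝ) < n1 := by linarith
  -- combine
  have h6 : κ / (30 * (M : ℝ)) ^ 2 / 2 ^ n1 ≤ h (30 * M) n1 :=
    le_trans (div_le_div_of_nonneg_right h5 (by positivity)) h4
  have h7 : κ / (30 * (M : ℝ)) ^ 2 / 2 ^ n1 * ((M : ℝ) / n1) * (1 + 0.1 * S) ≤
      h (30 * M) (30 * M) := by
    calc κ / (30 * (M : ℝ)) ^ 2 / 2 ^ n1 * ((M : ℝ) / n1) * (1 + 0.1 * S)
        ≤ h (30 * M) n1 * ((M : ℝ) / n1) * (1 + 0.1 * S) := by
          apply mul_le_mul_of_nonneg_right _ (by positivity)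
          exact mul_le_mul_of_nonneg_right h6 (by positivity)
      _ ≤ _ := h1
      _ ≤ _ := h2
  have h8 : κ / (30 * (M : ℝ)) ^ 2 / 2 ^ n1 * ((M : ℝ) / n1) * (1 + 0.1 * S) * (30 * M) ≤ 5 :=
    le_trans (mul_le_mul_of_nonneg_right h7 (by positivity)) h3
  have h9 : κ / (30 * (M : ℝ)) ^ 2 / 2 ^ n1 * ((M : ℝ) / n1) * (1 + 0.1 * S) * (30 * M)
      = κ / (30 * 2 ^ n1 * n1) * (1 + 0.1 * S) := by
    field_simp
  rw [h9] at h8
  have h10 : κ / (30 * 2 ^ n1 * n1) * (1 + 0.1 * S) > 5 := by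
    have h11 : 150 * 2 ^ n1 * n1 / κ < 0.1 * S := by linarith
    have h12 : 0 < κ / (30 * 2 ^ n1 * (n1 : ℝ)) := by positivity
    have h13 : κ / (30 * 2 ^ n1 * (n1 : ℝ)) * (150 * 2 ^ n1 * n1 / κ) = 5 := by
      field_simp
      norm_num
    calc (5 : ℝ) = κ / (30 * 2 ^ n1 * (n1 : ℝ)) * (150 * 2 ^ n1 * n1 / κ) := h13.symm
      _ < κ / (30 * 2 ^ n1 * (n1 : ℝ)) * (1 + 0.1 * S) := by
          apply mul_lt_mul_of_pos_left _ h12
          linarith
  linarith

end Pool.Agent.J6H79.DR
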